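import Pool.Agent.H17.GP.Final
import Pool.Agent.H52.OB.LMod

/-!
# Goldstern's principle: `Δ¹₂` does not imply `Σ¹₂` (MP_66e4cf_lc)

There is a countable transitive model of ZFC in which `GP(Δ¹₂)` holds and `GP(Σ¹₂)` fails.
-/

set_option autoImplicit false

namespace Pool.Agent.Results.MP_66e4cf_lc.GoldDeltaNotSigma

open Pool.Agent.H17.Omega Pool.Agent.H17.GP

/-- There is a countable transitive model `N` of ZFC such that in `N` Goldstern's principle holds for all boldface
`Δ¹₂` sets and fails for some boldface `Σ¹₂` set. -/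
theorem result : ∃ N : Set ZFSet.{0}, CTM N ∧ Gold (Rl N) (Del12 (Rl N)) ∧ ¬ Gold (Rl N) (Sig12 (Rl N)) :=
  main_of_lmod Pool.Agent.H52.OB.lmod_one

end Pool.Agent.Results.MP_66e4cf_lc.GoldDeltaNotSigma
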